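import Mathlib
set_option autoImplicit false
open scoped Classical
namespace Pool.Agent.Helper999.HSD

/-- The Hoffman-Singleton graph: pentagons `(false, j, ·)`, pentagrams `(true, k, ·)`, vertex `i` of
pentagon `j` joined to vertex `i + j * k` of pentagram `k`. -/
def HS : SimpleGraph (Bool × ZMod 5 × ZMod 5) :=
  SimpleGraph.fromRel (fun x y : Bool × ZMod 5 × ZMod 5 =>
            (x.1 = false ∧ y.1 = false ∧ x.2.1 = y.2.1 ∧ y.2.2 = x.2.2 + 1) ∨
            (x.1 = true ∧ y.1 = true ∧ x.2.1 = y.2.1 ∧ y.2.2 = x.2.2 + 2) ∨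
            (x.1 = false ∧ y.1 = true ∧ y.2.2 = x.2.2 + x.2.1 * y.2.1))

/-- 7-regular, no triangle, two distinct nonadjacent vertices have exactly one common neighbour -/
structure Moore (H : SimpleGraph (Fin 50)) : Prop where
  reg : ∀ x, (Finset.univ.filter (fun y => H.Adj x y)).card = 7
  tri : ∀ x y z, H.Adj x y → H.Adj y z → H.Adj x z → False
  com : ∀ x y, x ≠ y → ¬ H.Adj x y → ∃! z, H.Adj x z ∧ H.Adj y z

/-- `σ` is an automorphism of `H` -/
def Inv (H : SimpleGraph (Fin 50)) (σ : Equiv.Perm (Fin 50)) : Prop :=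
  ∀ x y, H.Adj x y ↔ H.Adj (σ x) (σ y)

/-- fixed points -/
noncomputable def F (σ : Equiv.Perm (Fin 50)) : Finset (Fin 50) :=
  Finset.univ.filter (fun x => σ x = x)

/-- number of fixed neighbours of `w` -/
noncomputable def d (H : SimpleGraph (Fin 50)) (σ : Equiv.Perm (Fin 50)) (w : Fin 50) : ℕ :=
  (Finset.univ.filter (fun y => σ y = y ∧ H.Adj w y)).card

/-- a decomposition of the complete graph into seven copies of the Hoffman-Singleton graph -/
structure Dec (G : Fin 7 → SimpleGraph (Fin 50)) : Prop where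
  iso : ∀ i, Nonempty (HS ≃g G i)
  disj : ∀ i j, i ≠ j → ∀ x y, (G i).Adj x y → ¬ (G j).Adj x y
  cov : ∀ x y, x ≠ y → ∃ i, (G i).Adj x y

/-- `σ` permutes the members of the decomposition -/
def Aut (G : Fin 7 → SimpleGraph (Fin 50)) (σ : Equiv.Perm (Fin 50)) : Prop :=
  ∀ i, ∃ j, ∀ x y, (G i).Adj x y ↔ (G j).Adj (σ x) (σ y)

/-- indices of the copies fixed by `σ` -/
noncomputable def C (G : Fin 7 → SimpleGraph (Fin 50)) (σ : Equiv.Perm (Fin 50)) : Finset (Fin 7) :=
  Finset.univ.filter (fun i => Inv (G i) σ)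



namespace L_hs_moore



def rB (x y : Bool × ZMod 5 × ZMod 5) : Bool :=
  (x.1 == false && y.1 == false && x.2.1 == y.2.1 && y.2.2 == x.2.2 + 1) ||
  (x.1 == true && y.1 == true && x.2.1 == y.2.1 && y.2.2 == x.2.2 + 2) ||
  (x.1 == false && y.1 == true && y.2.2 == x.2.2 + x.2.1 * y.2.1)

def aB (x y : Bool × ZMod 5 × ZMod 5) : Bool := (rB x y || rB y x) && (x != y)

lemma rB_iff (x y : Bool × ZMod 5 × ZMod 5) : rB x y = true ↔
    ((x.1 = false ∧ y.1 = false ∧ x.2.1 = y.2.1 ∧ y.2.2 = x.2.2 + 1) ∨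
            (x.1 = true ∧ y.1 = true ∧ x.2.1 = y.2.1 ∧ y.2.2 = x.2.2 + 2) ∨
            (x.1 = false ∧ y.1 = true ∧ y.2.2 = x.2.2 + x.2.1 * y.2.1)) := by
  unfold rB
  rw [Bool.or_eq_true, Bool.or_eq_true, or_assoc]
  simp only [Bool.and_eq_true, beq_iff_eq, and_assoc]

lemma adj_aB (x y : Bool × ZMod 5 × ZMod 5) : HS.Adj x y ↔ aB x y = true := by
  unfold HS aB
  rw [SimpleGraph.fromRel_adj, Bool.and_eq_true, Bool.or_eq_true, rB_iff, rB_iff, bne_iff_ne,
    and_comm]

lemma reg0 : ∀ x, (Finset.univ.filter (fun y => aB x y = true)).card = 7 := by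
  decide +kernel

lemma tri0 : ∀ x y, aB x y = true → ∀ z, aB y z = true → aB x z = false := by
  decide +kernel

lemma com0 : ∀ x y, x ≠ y → aB x y = false →
    (Finset.univ.filter (fun z => (aB x z && aB y z) = true)).card = 1 := by
  decide +kernel

theorem hs_moore (H : SimpleGraph (Fin 50)) (h : Nonempty (HS ≃g H)) : Moore H := by
  obtain ⟨e⟩ := h
  have key : ∀ x y, H.Adj x y ↔ aB (e.symm x) (e.symm y) = true := by
    intro x y
    rw [← adj_aB, e.symm.map_adj_iff]
  refine ⟨?_, ?_, ?_⟩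
  · intro x
    rw [← reg0 (e.symm x)]
    refine Finset.card_bij (fun y _ => e.symm y) ?_ ?_ ?_
    · intro y hy
      rw [Finset.mem_filter] at hy ⊢
      exact ⟨Finset.mem_univ _, (key x y).1 hy.2⟩
    · intro y _ z _ hyz
      exact e.symm.injective hyz
    · intro b hb
      rw [Finset.mem_filter] at hb
      refine ⟨e b, ?_, by simp⟩
      rw [Finset.mem_filter]
      refine ⟨Finset.mem_univ _, (key x (e b)).2 ?_⟩
      simpa using hb.2
  · intro x y z hxy hyz hxz
    have h1 := tri0 _ _ ((key x y).1 hxy) _ ((key y z).1 hyz)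
    have h2 := (key x z).1 hxz
    rw [h1] at h2
    exact absurd h2 (by simp)
  · intro x y hne hna
    have hne' : e.symm x ≠ e.symm y := fun h => hne (e.symm.injective h)
    have hna' : aB (e.symm x) (e.symm y) = false := by
      by_contra hc
      exact hna ((key x y).2 (by simpa using hc))
    have hc := com0 _ _ hne' hna'
    rw [Finset.card_eq_one] at hc
    obtain ⟨w, hw⟩ := hc
    have hmem : ∀ z, (aB (e.symm x) z = true ∧ aB (e.symm y) z = true) ↔ z = w := by
      intro z
      have := Finset.ext_iff.1 hw z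
      rw [Finset.mem_filter, Finset.mem_singleton, Bool.and_eq_true] at this
      constructor
      · intro hz
        exact this.1 ⟨Finset.mem_univ _, hz⟩
      · intro hz
        exact (this.2 hz).2
    refine ⟨e w, ?_, ?_⟩
    · have := (hmem w).2 rfl
      constructor
      · rw [key]; simpa using this.1
      · rw [key]; simpa using this.2
    · intro z hz
      have hz' := (hmem (e.symm z)).1 ⟨(key x z).1 hz.1, (key y z).1 hz.2⟩
      rw [← hz']
      simp

end L_hs_moore


namespace L_sum_sq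


theorem sum_sq (H : SimpleGraph (Fin 50)) (hM : Moore H) (σ : Equiv.Perm (Fin 50)) (hI : Inv H σ) :
    ∑ w ∈ F σ, (d H σ w) ^ 2 + (F σ).card = (F σ).card ^ 2 := by
  have hmemF : ∀ x, x ∈ F σ ↔ σ x = x := by
    intro x
    unfold F
    simp
  have hd : ∀ w, d H σ w = ((F σ).filter (fun y => H.Adj w y)).card := by
    intro w
    unfold d F
    rw [Finset.filter_filter]
  have hsq : ∀ w, (d H σ w) ^ 2 =
      ∑ y ∈ F σ, ∑ z ∈ F σ, (if H.Adj w y ∧ H.Adj w z then 1 else 0) := by
    intro w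
    rw [hd, Finset.card_filter, sq, Finset.sum_mul_sum]
    apply Finset.sum_congr rfl; intro y _
    apply Finset.sum_congr rfl; intro z _
    by_cases h1 : H.Adj w y <;> by_cases h2 : H.Adj w z <;> simp [h1, h2]
  have hN : ∀ y ∈ F σ, ∀ z ∈ F σ,
      ∑ w ∈ F σ, (if H.Adj w y ∧ H.Adj w z then 1 else 0) =
        (if z = y then d H σ y else 0) + (if z ≠ y ∧ ¬ H.Adj y z then 1 else 0) := by
    intro y hy z hz
    rw [← Finset.card_filter]
    by_cases hzy : z = y
    · subst hzy
      rw [if_pos rfl, if_neg (by simp), add_zero, hd]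
      congr 1
      ext w
      simp only [Finset.mem_filter, and_self, H.adj_comm]
    · rw [if_neg hzy, zero_add]
      by_cases hadj : H.Adj y z
      · rw [if_neg (by simp [hadj]), Finset.card_eq_zero, Finset.filter_eq_empty_iff]
        rintro w _ ⟨h1, h2⟩
        exact hM.tri w y z h1 hadj h2
      · rw [if_pos ⟨hzy, hadj⟩]
        obtain ⟨w0, ⟨h1, h2⟩, huniq⟩ := hM.com y z (fun h => hzy h.symm) hadj
        have h3 : σ w0 = w0 := by
          apply huniq
          constructor
          · have := (hI y w0).1 h1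
            rwa [(hmemF y).1 hy] at this
          · have := (hI z w0).1 h2
            rwa [(hmemF z).1 hz] at this
        rw [Finset.card_eq_one]
        refine ⟨w0, ?_⟩
        ext w
        rw [Finset.mem_filter, Finset.mem_singleton]
        constructor
        · rintro ⟨_, h4, h5⟩
          exact huniq w ⟨h4.symm, h5.symm⟩
        · rintro rfl
          exact ⟨(hmemF w).2 h3, h1.symm, h2.symm⟩
  have hrow : ∀ y ∈ F σ, (∑ z ∈ F σ, ∑ w ∈ F σ, (if H.Adj w y ∧ H.Adj w z then 1 else 0)) + 1 =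
      (F σ).card := by
    intro y hy
    rw [Finset.sum_congr rfl (fun z hz => hN y hy z hz), Finset.sum_add_distrib,
      Finset.sum_ite_eq' (F σ) y (fun _ => d H σ y), if_pos hy]
    have hf : (F σ).card = ∑ z ∈ F σ, ((if z = y then 1 else 0) + (if H.Adj y z then 1 else 0) +
        (if z ≠ y ∧ ¬ H.Adj y z then 1 else 0)) := by
      rw [Finset.card_eq_sum_ones]
      apply Finset.sum_congr rfl
      intro z _
      by_cases h1 : z = y
      · subst h1
        simp
      · by_cases h2 : H.Adj y z <;> simp [h1, h2]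
    rw [hf, Finset.sum_add_distrib, Finset.sum_add_distrib, Finset.sum_ite_eq' (F σ) y (fun _ => 1),
      if_pos hy, hd, Finset.card_filter]
    ring
  have htot : ∑ w ∈ F σ, (d H σ w) ^ 2 =
      ∑ y ∈ F σ, ∑ z ∈ F σ, ∑ w ∈ F σ, (if H.Adj w y ∧ H.Adj w z then 1 else 0) := by
    rw [Finset.sum_congr rfl (fun w _ => hsq w), Finset.sum_comm]
    apply Finset.sum_congr rfl
    intro y _
    rw [Finset.sum_comm]
  have hfin : ∑ y ∈ F σ, ((∑ z ∈ F σ, ∑ w ∈ F σ, (if H.Adj w y ∧ H.Adj w z then 1 else 0)) + 1) =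
      ∑ y ∈ F σ, (F σ).card := Finset.sum_congr rfl hrow
  rw [Finset.sum_add_distrib, Finset.sum_const, Finset.sum_const, smul_eq_mul, smul_eq_mul, mul_one] at hfin
  rw [htot, hfin, sq]

end L_sum_sq


namespace L_sum_deg


theorem sum_deg (G : Fin 7 → SimpleGraph (Fin 50)) (hG : Dec G) (σ : Equiv.Perm (Fin 50))
    (hA : Aut G σ) (w : Fin 50) (hw : w ∈ F σ) :
    ∑ i ∈ C G σ, d (G i) σ w + 1 = (F σ).card := by
  have hσw : σ w = w := by
    have := hw
    rw [F, Finset.mem_filter] at this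
    exact this.2
  have hE : (F σ).erase w = (C G σ).biUnion
      (fun i => Finset.univ.filter (fun y => σ y = y ∧ (G i).Adj w y)) := by
    ext y
    rw [Finset.mem_erase, F, Finset.mem_filter, Finset.mem_biUnion]
    constructor
    · rintro ⟨hne, _, hy⟩
      obtain ⟨i, hi⟩ := hG.cov w y (Ne.symm hne)
      obtain ⟨j, hj⟩ := hA i
      have h1 : (G j).Adj w y := by
        have := (hj w y).mp hi
        rwa [hσw, hy] at this
      have hij : i = j := by
        by_contra hne'
        exact hG.disj i j hne' w y hi h1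
      refine ⟨i, ?_, ?_⟩
      · rw [C, Finset.mem_filter]
        refine ⟨Finset.mem_univ _, ?_⟩
        intro a b
        have := hj a b
        rwa [← hij] at this
      · rw [Finset.mem_filter]
        exact ⟨Finset.mem_univ _, hy, hi⟩
    · rintro ⟨i, _, hi⟩
      rw [Finset.mem_filter] at hi
      obtain ⟨_, hy, hadj⟩ := hi
      exact ⟨hadj.ne', Finset.mem_univ _, hy⟩
  have hcard : ((F σ).erase w).card = ∑ i ∈ C G σ, d (G i) σ w := by
    rw [hE, Finset.card_biUnion]
    · rfl
    · intro i _ j _ hij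
      rw [Function.onFun, Finset.disjoint_left]
      intro y hy hy'
      rw [Finset.mem_filter] at hy hy'
      exact hG.disj i j hij w y hy.2.2 hy'.2.2
  rw [← hcard]
  exact Finset.card_erase_add_one hw

end L_sum_deg


namespace L_deg_mod


theorem deg_mod (H : SimpleGraph (Fin 50)) (hM : Moore H) (σ : Equiv.Perm (Fin 50)) (hI : Inv H σ)
    (p : ℕ) (hp : p.Prime) (hσ : σ ^ p = 1) (w : Fin 50) (hw : w ∈ F σ) :
    d H σ w ≡ 7 [MOD p] := by
  haveI : Fact p.Prime := ⟨hp⟩
  have hw' : σ w = w := (Finset.mem_filter.1 hw).2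
  have hadj : ∀ y, H.Adj w y → H.Adj w (σ y) := by
    intro y hy
    have := (hI w y).1 hy
    rwa [hw'] at this
  let f : Function.End {y // H.Adj w y} := fun y => ⟨σ y.1, hadj y.1 y.2⟩
  have hpow : ∀ (k : ℕ) (y : {y // H.Adj w y}), ((f ^ k : Function.End _) y).1 = (σ ^ k) y.1 := by
    intro k
    induction k with
    | zero => intro y; rfl
    | succ k ih =>
      intro y
      rw [pow_succ, pow_succ]
      exact ih (f y)
  have hf : f ^ p ^ 1 = 1 := by
    funext y
    apply Subtype.ext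
    rw [hpow, pow_one, hσ]
    rfl
  have h1 := Equiv.Perm.card_fixedPoints_modEq (f := f) (p := p) (n := 1) hf
  have h2 : Fintype.card {y // H.Adj w y} = 7 := by
    rw [Fintype.card_subtype]
    exact hM.reg w
  have h3 : Fintype.card (Function.fixedPoints f) = d H σ w := by
    unfold d
    rw [← Fintype.card_subtype]
    exact Fintype.card_congr
      { toFun := fun y => ⟨y.1.1, ⟨congrArg Subtype.val y.2, y.1.2⟩⟩
        invFun := fun y => ⟨⟨y.1, y.2.2⟩, Subtype.ext y.2.1⟩
        left_inv := fun _ => rfl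
        right_inv := fun _ => rfl }
  rw [h2] at h1
  have h4 := h1.symm
  convert h4 using 1
  rw [← h3]

end L_deg_mod


namespace L_f_mod


theorem f_mod (σ : Equiv.Perm (Fin 50)) (p : ℕ) (hp : p.Prime) (hσ : σ ^ p = 1) :
    (F σ).card ≡ 50 [MOD p] := by
  haveI : Fact p.Prime := ⟨hp⟩
  have h1 : (σ : Fin 50 → Fin 50)^[p ^ 1] = id := by
    rw [pow_one, ← Equiv.Perm.coe_pow, hσ]
    rfl
  have h2 := Equiv.Perm.card_fixedPoints_modEq (p := p) (n := 1) h1
  have h3 : Fintype.card (Function.fixedPoints (σ : Fin 50 → Fin 50)) = (F σ).card := by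
    rw [F]
    exact Fintype.card_of_subtype _ (fun x => by
      simp only [Finset.mem_filter, Finset.mem_univ, true_and]
      rfl)
  rw [h3, Fintype.card_fin] at h2
  exact h2.symm

end L_f_mod


namespace L_c_mod


theorem c_mod_edge (G : Fin 7 → SimpleGraph (Fin 50)) (hG : Dec G) (i : Fin 7) :
    ∃ x y, (G i).Adj x y := by
  obtain ⟨e⟩ := hG.iso i
  have h : HS.Adj (false, 0, 0) (false, 0, 1) := by
    rw [HS, SimpleGraph.fromRel_adj]
    refine ⟨?_, Or.inl (Or.inl ⟨rfl, rfl, rfl, by simp⟩)⟩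
    intro h
    have h1 : (0 : ZMod 5) = 1 := by
      have := congrArg (fun z : Bool × ZMod 5 × ZMod 5 => z.2.2) h
      exact this
    revert h1
    decide
  exact ⟨_, _, (e.map_rel_iff).mpr h⟩

theorem c_mod (G : Fin 7 → SimpleGraph (Fin 50)) (hG : Dec G) (σ : Equiv.Perm (Fin 50))
    (hA : Aut G σ) (p : ℕ) (hp : p.Prime) (hσ : σ ^ p = 1) :
    (C G σ).card ≡ 7 [MOD p] := by
  have hpf : Fact p.Prime := ⟨hp⟩
  choose π hπ using hA
  let f : Function.End (Fin 7) := π
  have hf : ∀ i x y, (G i).Adj x y ↔ (G (f i)).Adj (σ x) (σ y) := hπ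
  have huniq : ∀ i j x y, (G i).Adj x y → (G j).Adj x y → i = j := by
    intro i j x y h1 h2
    by_contra hij
    exact hG.disj i j hij x y h1 h2
  have hiter : ∀ (k : ℕ) (i : Fin 7) (x y : Fin 50),
      (G i).Adj x y ↔ (G ((f ^ k) i)).Adj ((σ ^ k) x) ((σ ^ k) y) := by
    intro k
    induction k with
    | zero => intro i x y; exact Iff.rfl
    | succ k ih =>
      intro i x y
      rw [pow_succ' f, pow_succ' σ]
      exact (ih i x y).trans (hf ((f ^ k) i) ((σ ^ k) x) ((σ ^ k) y))
  have hfp : f ^ p ^ 1 = 1 := by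
    rw [pow_one]
    funext i
    obtain ⟨x, y, hxy⟩ := c_mod_edge G hG i
    have h1 := (hiter p i x y).mp hxy
    rw [hσ] at h1
    exact (huniq i ((f ^ p) i) x y hxy h1).symm
  have hmod := Equiv.Perm.card_fixedPoints_modEq (f := f) (p := p) (n := 1) hfp
  have hcard : Fintype.card (Function.fixedPoints f) = (C G σ).card := by
    refine Fintype.card_of_subtype (C G σ) ?_
    intro i
    rw [C, Finset.mem_filter]
    constructor
    · rintro ⟨-, hi⟩
      obtain ⟨x, y, hxy⟩ := c_mod_edge G hG i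
      have h1 := (hi x y).mp hxy
      have h2 := (hf i x y).mp hxy
      exact huniq (f i) i _ _ h2 h1
    · intro hi
      refine ⟨Finset.mem_univ _, ?_⟩
      intro x y
      have h1 := hf i x y
      have hi' : f i = i := hi
      rw [hi'] at h1
      exact h1
  rw [hcard, Fintype.card_fin] at hmod
  exact hmod.symm

end L_c_mod


namespace L_invol_count


theorem invol_count (H : SimpleGraph (Fin 50)) (hM : Moore H) (σ : Equiv.Perm (Fin 50))
    (hI : Inv H σ) (hσ : σ ^ 2 = 1) :
    (Finset.univ.filter (fun x => H.Adj x (σ x))).card + 8 * (F σ).card =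
      50 + ∑ w ∈ F σ, d H σ w := by
  have hss : ∀ x, σ (σ x) = x := by
    intro x
    have h := congrArg (fun f : Equiv.Perm (Fin 50) => f x) hσ
    simpa [pow_two] using h
  have hfix : ∀ z y, σ z = z → H.Adj y z → H.Adj (σ y) z := by
    intro z y hz hy
    have := (hI y z).1 hy
    rwa [hz] at this
  -- partition of the vertices
  have hpart : (Finset.univ.filter (fun x => H.Adj x (σ x))).card + (F σ).card +
      (Finset.univ.filter (fun x => σ x ≠ x ∧ ¬ H.Adj x (σ x))).card = 50 := by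
    have h1 := Finset.card_filter_add_card_filter_not (s := (Finset.univ : Finset (Fin 50)))
      (fun x => σ x = x)
    have h2 := Finset.card_filter_add_card_filter_not
      (s := (Finset.univ : Finset (Fin 50)).filter (fun x => ¬ σ x = x)) (fun x => H.Adj x (σ x))
    rw [Finset.filter_filter, Finset.filter_filter] at h2
    have h3 : (Finset.univ.filter (fun x => ¬ σ x = x ∧ H.Adj x (σ x))) =
        Finset.univ.filter (fun x => H.Adj x (σ x)) := by
      apply Finset.filter_congr
      intro x _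
      constructor
      · exact fun h => h.2
      · intro h
        refine ⟨fun h' => ?_, h⟩
        rw [h'] at h
        exact H.loopless.irrefl x h
    rw [h3] at h2
    have h4 : (Finset.univ : Finset (Fin 50)).card = 50 := by simp
    unfold F
    simp only [ne_eq]
    omega
  have hz : ∀ z ∈ F σ, 7 = d H σ z + (Finset.univ.filter (fun y => σ y ≠ y ∧ H.Adj z y)).card := by
    intro z _
    have h1 := Finset.card_filter_add_card_filter_not
      (s := (Finset.univ : Finset (Fin 50)).filter (fun y => H.Adj z y)) (fun y => σ y = y)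
    rw [hM.reg z, Finset.filter_filter, Finset.filter_filter] at h1
    rw [← h1]
    unfold d
    congr 1
    · congr 1
      apply Finset.filter_congr
      intro y _
      exact and_comm
    · congr 1
      apply Finset.filter_congr
      intro y _
      exact and_comm
  have hsum : 7 * (F σ).card = ∑ z ∈ F σ, d H σ z +
      ∑ z ∈ F σ, (Finset.univ.filter (fun y => σ y ≠ y ∧ H.Adj z y)).card := by
    rw [← Finset.sum_add_distrib, ← Finset.sum_congr rfl hz]
    simp [mul_comm]
  have hdc : ∑ z ∈ F σ, (Finset.univ.filter (fun y => σ y ≠ y ∧ H.Adj z y)).card =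
      (Finset.univ.filter (fun x => σ x ≠ x ∧ ¬ H.Adj x (σ x))).card := by
    have h1 := Finset.sum_card_bipartiteAbove_eq_sum_card_bipartiteBelow
      (s := F σ) (t := (Finset.univ : Finset (Fin 50))) (fun z y => σ y ≠ y ∧ H.Adj z y)
    unfold Finset.bipartiteAbove Finset.bipartiteBelow at h1
    rw [h1, Finset.card_filter]
    apply Finset.sum_congr rfl
    intro y _
    by_cases hy : σ y ≠ y ∧ ¬ H.Adj y (σ y)
    · rw [if_pos hy]
      obtain ⟨z, ⟨hz1, hz2⟩, hz3⟩ := hM.com y (σ y) (fun h => hy.1 h.symm) hy.2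
      have hzf : σ z = z := by
        apply hz3
        refine ⟨?_, ?_⟩
        · have := (hI (σ y) z).1 hz2
          rwa [hss] at this
        · exact (hI y z).1 hz1
      rw [Finset.card_eq_one]
      refine ⟨z, ?_⟩
      ext z'
      simp only [Finset.mem_filter, Finset.mem_singleton, F, Finset.mem_univ, true_and]
      constructor
      · rintro ⟨h1, _, h3⟩
        exact hz3 z' ⟨h3.symm, hfix z' y h1 h3.symm⟩
      · rintro rfl
        exact ⟨hzf, hy.1, hz1.symm⟩
    · rw [if_neg hy]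
      rw [Finset.card_eq_zero, Finset.filter_eq_empty_iff]
      rintro z hzF ⟨h1, h2⟩
      have hz0 : σ z = z := by simpa [F] using hzF
      have h3 : H.Adj y (σ y) := by
        by_contra h
        exact hy ⟨h1, h⟩
      exact hM.tri z y (σ y) h2 h3 (hfix z y hz0 h2.symm).symm
  omega

end L_invol_count


namespace L_invol_sum


theorem invol_sum (G : Fin 7 → SimpleGraph (Fin 50)) (hG : Dec G) (σ : Equiv.Perm (Fin 50))
    (hA : Aut G σ) (hσ : σ ^ 2 = 1) :
    ∑ i ∈ C G σ, (Finset.univ.filter (fun x => (G i).Adj x (σ x))).card + (F σ).card = 50 := by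
  have hσσ : ∀ x, σ (σ x) = x := by
    intro x
    have h1 := congrArg (fun τ : Equiv.Perm (Fin 50) => τ x) hσ
    simpa [pow_two] using h1
  have hx : ∀ x, ((C G σ).filter (fun i => (G i).Adj x (σ x))).card = if σ x = x then 0 else 1 := by
    intro x
    split_ifs with h
    · rw [Finset.card_eq_zero, Finset.filter_eq_empty_iff]
      intro i _ hadj
      rw [h] at hadj
      exact (G i).loopless.irrefl x hadj
    · rw [Finset.card_eq_one]
      obtain ⟨i, hi⟩ := hG.cov x (σ x) (fun h' => h h'.symm)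
      refine ⟨i, ?_⟩
      ext k
      simp only [Finset.mem_filter, Finset.mem_singleton]
      constructor
      · rintro ⟨_, hk⟩
        by_contra hne
        exact hG.disj k i hne _ _ hk hi
      · rintro rfl
        refine ⟨?_, hi⟩
        unfold C
        rw [Finset.mem_filter]
        refine ⟨Finset.mem_univ _, ?_⟩
        obtain ⟨j, hj⟩ := hA k
        have h1 := (hj x (σ x)).1 hi
        rw [hσσ] at h1
        have h2 : k = j := by
          by_contra hne
          exact hG.disj k j hne _ _ hi h1.symm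
        subst h2
        exact hj
  have hsum : ∑ i ∈ C G σ, (Finset.univ.filter (fun x => (G i).Adj x (σ x))).card =
      ∑ x, ((C G σ).filter (fun i => (G i).Adj x (σ x))).card := by
    simp only [Finset.card_filter]
    exact Finset.sum_comm
  rw [hsum]
  simp only [hx]
  unfold F
  rw [Finset.card_filter, ← Finset.sum_add_distrib]
  have h3 : ∀ x : Fin 50, ((if σ x = x then 0 else 1) + if σ x = x then 1 else 0) = 1 := by
    intro x
    split_ifs <;> rfl
  simp only [h3]
  simp

end L_invol_sum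


namespace L_no_match


theorem no_match (H : SimpleGraph (Fin 50)) (hM : Moore H) (σ : Equiv.Perm (Fin 50))
    (hI : Inv H σ) (hσ : σ ^ 2 = 1) (hall : ∀ x, H.Adj x (σ x)) : False := by
  have hσ2 : ∀ x, σ (σ x) = x := by
    intro x
    have := congrArg (fun τ : Equiv.Perm (Fin 50) => τ x) hσ
    simpa [pow_two] using this
  let x : Fin 50 := 0
  have hcard := hM.reg x
  obtain ⟨y, hy, hne⟩ : ∃ y ∈ Finset.univ.filter (fun y => H.Adj x y), y ≠ σ x := by
    apply Finset.exists_mem_ne
    rw [hcard]; norm_num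
  rw [Finset.mem_filter] at hy
  have hxy : H.Adj x y := hy.2
  have h1 : H.Adj (σ x) (σ y) := (hI x y).1 hxy
  have h2 : H.Adj y (σ y) := hall y
  have h3 : H.Adj x (σ x) := hall x
  by_cases hadj : H.Adj x (σ y)
  · exact hM.tri x y (σ y) hxy h2 hadj
  · have hxy' : x ≠ σ y := by
      intro h
      apply hne
      rw [h, hσ2]
    obtain ⟨z, _, hz⟩ := hM.com x (σ y) hxy' hadj
    have e1 := hz y ⟨hxy, h2.symm⟩
    have e2 := hz (σ x) ⟨h3, h1.symm⟩
    exact hne (e1.trans e2.symm)

end L_no_match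


namespace L_trace_mod


theorem tm_nil {R : Type*} [Ring R] (p n : R) (h : Commute p n) (hn : n ^ 3 = 0) :
    IsNilpotent (p * n) := ⟨3, by rw [h.mul_pow, hn, mul_zero]⟩

theorem tm_five : (5 : ZMod 5) = 0 := by decide

theorem tm_seven : ((7 : ℕ) : ZMod 5) = 1 + 1 := by decide

theorem trace_mod (H : SimpleGraph (Fin 50)) (hM : Moore H) (σ : Equiv.Perm (Fin 50))
    (hI : Inv H σ) :
    (((Finset.univ.filter (fun x => H.Adj x (σ x))).card : ℕ) : ZMod 5) = 2 * ((F σ).card : ZMod 5) := by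
  haveI : Fact (Nat.Prime 5) := ⟨by norm_num⟩
  have h5 : (5 : ZMod 5) = 0 := tm_five
  have h7 : ((7 : ℕ) : ZMod 5) = 1 + 1 := tm_seven
  obtain ⟨A, hA⟩ : ∃ A : Matrix (Fin 50) (Fin 50) (ZMod 5),
      ∀ i j, A i j = if H.Adj i j then 1 else 0 := ⟨Matrix.of fun i j => if H.Adj i j then 1 else 0,
        fun _ _ => rfl⟩
  obtain ⟨J, hJ⟩ : ∃ J : Matrix (Fin 50) (Fin 50) (ZMod 5), ∀ i j, J i j = 1 :=
    ⟨Matrix.of fun _ _ => 1, fun _ _ => rfl⟩
  obtain ⟨P, hP⟩ : ∃ P : Matrix (Fin 50) (Fin 50) (ZMod 5),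
      ∀ i j, P i j = if σ i = j then 1 else 0 := ⟨Matrix.of fun i j => if σ i = j then 1 else 0,
        fun _ _ => rfl⟩
  have hAAe : ∀ i j, (A * A) i j =
      ((Finset.univ.filter (fun z => H.Adj i z ∧ H.Adj z j)).card : ZMod 5) := by
    intro i j
    rw [Matrix.mul_apply, Finset.card_filter, Nat.cast_sum]
    refine Finset.sum_congr rfl fun z _ => ?_
    rw [hA, hA]
    by_cases h1 : H.Adj i z <;> by_cases h2 : H.Adj z j <;> simp [h1, h2]
  have hAA : A * A + A = 1 + J := by
    ext i j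
    rw [Matrix.add_apply, Matrix.add_apply, hAAe, hJ, hA]
    by_cases hij : i = j
    · subst hij
      have e : (Finset.univ.filter (fun z => H.Adj i z ∧ H.Adj z i)) =
          Finset.univ.filter (fun z => H.Adj i z) := by
        ext z
        simp only [Finset.mem_filter, Finset.mem_univ, true_and]
        exact ⟨fun h => h.1, fun h => ⟨h, h.symm⟩⟩
      rw [e, hM.reg i, h7, Matrix.one_apply_eq, if_neg (H.irrefl)]
      ring
    · rw [Matrix.one_apply_ne hij]
      by_cases hadj : H.Adj i j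
      · have e : (Finset.univ.filter (fun z => H.Adj i z ∧ H.Adj z j)) = ∅ := by
          rw [Finset.filter_eq_empty_iff]
          rintro z _ ⟨h1, h2⟩
          exact hM.tri i z j h1 h2 hadj
        rw [e, if_pos hadj]
        simp
      · obtain ⟨z, hz, hu⟩ := hM.com i j hij hadj
        have e : (Finset.univ.filter (fun z => H.Adj i z ∧ H.Adj z j)) = {z} := by
          ext w
          simp only [Finset.mem_filter, Finset.mem_univ, true_and, Finset.mem_singleton]
          constructor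
          · rintro ⟨h1, h2⟩
            exact hu w ⟨h1, h2.symm⟩
          · rintro rfl
            exact ⟨hz.1, hz.2.symm⟩
        rw [e, if_neg hadj]
        simp
  have hAJ : A * J = J + J := by
    ext i j
    rw [Matrix.mul_apply, Matrix.add_apply, hJ]
    have e : ∑ z, A i z * J z j = ((Finset.univ.filter (fun z => H.Adj i z)).card : ZMod 5) := by
      rw [Finset.card_filter, Nat.cast_sum]
      refine Finset.sum_congr rfl fun z _ => ?_
      rw [hA, hJ]
      by_cases h1 : H.Adj i z <;> simp [h1]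
    rw [e, hM.reg i, h7]
  have hNN : (A - (1 + 1)) * (A - (1 + 1)) = J := by
    have e1 : (A - (1 + 1)) * (A - (1 + 1)) =
        (A * A + A) - (A + A + A + A + A) + (1 + 1 + 1 + 1) := by noncomm_ring
    rw [e1, hAA]
    ext i j
    simp only [Matrix.add_apply, Matrix.sub_apply]
    linear_combination ((1 : Matrix (Fin 50) (Fin 50) (ZMod 5)) i j - A i j) * h5
  have hNJ : (A - (1 + 1)) * J = 0 := by
    rw [sub_mul, hAJ, add_mul, one_mul, sub_self]
  have hN3 : (A - (1 + 1)) ^ 3 = 0 := by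
    rw [pow_succ', pow_two, hNN, hNJ]
  have hPA : Commute P A := by
    change P * A = A * P
    ext i j
    rw [Matrix.mul_apply, Matrix.mul_apply]
    have e1 : ∑ z, P i z * A z j = A (σ i) j := by
      rw [Finset.sum_eq_single (σ i)]
      · rw [hP, if_pos rfl, one_mul]
      · intro b _ hb
        rw [hP, if_neg (fun h => hb h.symm), zero_mul]
      · intro h
        exact absurd (Finset.mem_univ _) h
    have e2 : ∑ z, A i z * P z j = A i (σ.symm j) := by
      rw [Finset.sum_eq_single (σ.symm j)]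
      · rw [hP, if_pos (σ.apply_symm_apply j), mul_one]
      · intro b _ hb
        rw [hP, if_neg (fun h => hb (by rw [← h, σ.symm_apply_apply])), mul_zero]
      · intro h
        exact absurd (Finset.mem_univ _) h
    rw [e1, e2, hA, hA]
    have h := hI i (σ.symm j)
    rw [σ.apply_symm_apply] at h
    by_cases h1 : H.Adj (σ i) j
    · rw [if_pos h1, if_pos (h.2 h1)]
    · rw [if_neg h1, if_neg (fun h2 => h1 (h.1 h2))]
  have hPN : Commute P (A - (1 + 1)) := by
    have e : P * (A - (1 + 1)) = (A - (1 + 1)) * P := by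
      rw [mul_sub, sub_mul, hPA.eq, mul_add, add_mul, mul_one, one_mul]
    exact e
  have hnil : IsNilpotent (P * (A - (1 + 1))) := tm_nil P (A - (1 + 1)) hPN hN3
  have htr0 := (Matrix.isNilpotent_trace_of_isNilpotent hnil).eq_zero
  have htr1 : (P * (A - (1 + 1))).trace = (P * A).trace - (P.trace + P.trace) := by
    rw [mul_sub, mul_add, mul_one, Matrix.trace_sub, Matrix.trace_add]
  have htr2 : (P * A).trace = (((Finset.univ.filter (fun x => H.Adj x (σ x))).card : ℕ) : ZMod 5) := by
    rw [Matrix.trace, Finset.card_filter, Nat.cast_sum]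
    refine Finset.sum_congr rfl fun i _ => ?_
    rw [Matrix.diag_apply, Matrix.mul_apply, Finset.sum_eq_single (σ i)]
    · rw [hP, if_pos rfl, one_mul, hA]
      by_cases h1 : H.Adj i (σ i)
      · rw [if_pos h1.symm, if_pos h1]
        simp
      · rw [if_neg (fun h2 => h1 h2.symm), if_neg h1]
        simp
    · intro b _ hb
      rw [hP, if_neg (fun h => hb h.symm), zero_mul]
    · intro h
      exact absurd (Finset.mem_univ _) h
  have htr3 : P.trace = ((F σ).card : ZMod 5) := by
    unfold F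
    rw [Matrix.trace, Finset.card_filter, Nat.cast_sum]
    refine Finset.sum_congr rfl fun i _ => ?_
    rw [Matrix.diag_apply, hP]
    by_cases h1 : σ i = i
    · rw [if_pos h1, if_pos h1]
      simp
    · rw [if_neg h1, if_neg h1]
      simp
  rw [htr1, htr2, htr3] at htr0
  linear_combination htr0

end L_trace_mod


namespace L_order3_no


theorem order3_no (H : SimpleGraph (Fin 50)) (hM : Moore H) (σ : Equiv.Perm (Fin 50))
    (hI : Inv H σ) (hσ : σ ^ 3 = 1) (x : Fin 50) : ¬ H.Adj x (σ x) := by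
  intro h
  have h1 : H.Adj (σ x) (σ (σ x)) := (hI x (σ x)).1 h
  have h2 : H.Adj (σ (σ x)) (σ (σ (σ x))) := (hI _ _).1 h1
  have h3 : σ (σ (σ x)) = x := by
    have := congrArg (fun τ : Equiv.Perm (Fin 50) => τ x) hσ
    simpa [pow_succ, Equiv.Perm.mul_apply] using this
  rw [h3] at h2
  exact hM.tri x (σ x) (σ (σ x)) h h1 h2.symm

end L_order3_no


namespace L_bound1


theorem bound1 (Cc : Finset (Fin 7)) (Ff : Finset (Fin 50)) (e : Fin 7 → Fin 50 → ℤ)
    (h1 : ∀ w ∈ Ff, ∑ i ∈ Cc, e i w = (Ff.card : ℤ) - 1)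
    (h2 : ∀ i ∈ Cc, ∑ w ∈ Ff, (e i w) ^ 2 = (Ff.card : ℤ) ^ 2 - Ff.card)
    (h3 : ∀ i ∈ Cc, ∀ w ∈ Ff, 1 ≤ e i w ∧ e i w ≤ 7) (hF : 0 < Ff.card) :
    (Cc.card : ℤ) * ((Ff.card : ℤ) - 1) ≤ 8 * ((Ff.card : ℤ) - 1) - 7 * Cc.card := by
  have hle : ∑ i ∈ Cc, ∑ w ∈ Ff, (e i w) ^ 2 ≤ ∑ i ∈ Cc, ∑ w ∈ Ff, (8 * e i w - 7) := by
    refine Finset.sum_le_sum fun i hi => Finset.sum_le_sum fun w hw => ?_
    obtain ⟨a, b⟩ := h3 i hi w hw
    nlinarith
  have hl : ∑ i ∈ Cc, ∑ w ∈ Ff, (e i w) ^ 2 = (Cc.card : ℤ) * ((Ff.card : ℤ) ^ 2 - Ff.card) := by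
    rw [Finset.sum_congr rfl h2, Finset.sum_const, nsmul_eq_mul]
  have hr : ∑ i ∈ Cc, ∑ w ∈ Ff, (8 * e i w - 7)
      = (Ff.card : ℤ) * (8 * ((Ff.card : ℤ) - 1) - 7 * Cc.card) := by
    rw [Finset.sum_comm]
    have : ∀ w ∈ Ff, ∑ i ∈ Cc, (8 * e i w - 7) = 8 * ((Ff.card : ℤ) - 1) - 7 * Cc.card := by
      intro w hw
      rw [Finset.sum_sub_distrib, ← Finset.mul_sum, h1 w hw, Finset.sum_const, nsmul_eq_mul]
      ring
    rw [Finset.sum_congr rfl this, Finset.sum_const, nsmul_eq_mul]
  rw [hl, hr] at hle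
  have hf : (0 : ℤ) < (Ff.card : ℤ) := by exact_mod_cast hF
  have h4 : (Ff.card : ℤ) * ((Cc.card : ℤ) * ((Ff.card : ℤ) - 1)) ≤
      (Ff.card : ℤ) * (8 * ((Ff.card : ℤ) - 1) - 7 * Cc.card) := by
    calc _ = (Cc.card : ℤ) * ((Ff.card : ℤ) ^ 2 - Ff.card) := by ring
      _ ≤ _ := hle
  exact le_of_mul_le_mul_left h4 hf

end L_bound1


namespace L_bound2


theorem bound2 (Cc : Finset (Fin 7)) (Ff : Finset (Fin 50)) (e : Fin 7 → Fin 50 → ℤ)
    (h1 : ∀ w ∈ Ff, ∑ i ∈ Cc, e i w = (Ff.card : ℤ) - 1)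
    (h2 : ∀ i ∈ Cc, ∑ w ∈ Ff, (e i w) ^ 2 = (Ff.card : ℤ) ^ 2 - Ff.card)
    (hF : 2 ≤ Ff.card) :
    (Ff.card : ℤ) - 1 ≤ (Cc.card : ℤ) ^ 2 := by
  have hf : (2 : ℤ) ≤ (Ff.card : ℤ) := by exact_mod_cast hF
  have hA : ∀ w ∈ Ff, ((Ff.card : ℤ) - 1) ^ 2 ≤ (Cc.card : ℤ) * ∑ i ∈ Cc, (e i w) ^ 2 := by
    intro w hw
    rw [← h1 w hw]
    exact sq_sum_le_card_mul_sum_sq
  have hB := Finset.sum_le_sum hA
  rw [Finset.sum_const, nsmul_eq_mul, ← Finset.mul_sum, Finset.sum_comm,
    Finset.sum_congr rfl h2, Finset.sum_const, nsmul_eq_mul] at hB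
  have hpos : (0 : ℤ) < (Ff.card : ℤ) * ((Ff.card : ℤ) - 1) := by
    apply mul_pos <;> linarith
  have hC : ((Ff.card : ℤ) * ((Ff.card : ℤ) - 1)) * ((Ff.card : ℤ) - 1)
      ≤ ((Ff.card : ℤ) * ((Ff.card : ℤ) - 1)) * (Cc.card : ℤ) ^ 2 := by
    nlinarith [hB]
  exact le_of_mul_le_mul_left hC hpos

end L_bound2


namespace L_arith2


theorem arith2 (c f : ℤ) (hc : 0 ≤ c) (hc7 : c ≤ 7) (hcm : c % 2 = 1) (hf : 0 < f) (hf50 : f ≤ 50)
    (hfm : f % 2 = 0)
    (hE : 50 - f = c * (50 - 8 * f) + f * (f - 1)) (hb1 : c * (f - 1) ≤ 8 * (f - 1) - 7 * c)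
    (hb2 : f - 1 ≤ c ^ 2) (hne : f ≠ 50) : False := by
  interval_cases c <;> first | omega | (interval_cases f <;> omega)

end L_arith2


namespace L_arith3


theorem arith3 (c f : ℤ) (hc : 0 ≤ c) (hc7 : c ≤ 7) (hcm : c % 3 = 1) (hf : 0 ≤ f) (hf50 : f ≤ 50)
    (hfm : f % 3 = 2) (h5 : f % 5 = 0) (hb1 : c * (f - 1) ≤ 8 * (f - 1) - 7 * c)
    (hb2 : f - 1 ≤ c ^ 2) (hne : f ≠ 50) : False := by
  have h3 : c = 1 ∨ c = 4 ∨ c = 7 := by omega
  rcases h3 with rfl | rfl | rfl
  · norm_num at hb2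
    omega
  · norm_num at hb2
    omega
  · norm_num at hb2
    omega

end L_arith3


namespace L_big_prime


theorem big_prime_HSdeg : ∀ x : Bool × ZMod 5 × ZMod 5,
    (Finset.univ.filter (fun y : Bool × ZMod 5 × ZMod 5 => x ≠ y ∧
      (((x.1 = false ∧ y.1 = false ∧ x.2.1 = y.2.1 ∧ y.2.2 = x.2.2 + 1) ∨
            (x.1 = true ∧ y.1 = true ∧ x.2.1 = y.2.1 ∧ y.2.2 = x.2.2 + 2) ∨
            (x.1 = false ∧ y.1 = true ∧ y.2.2 = x.2.2 + x.2.1 * y.2.1)) ∨
       ((y.1 = false ∧ x.1 = false ∧ y.2.1 = x.2.1 ∧ x.2.2 = y.2.2 + 1) ∨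
            (y.1 = true ∧ x.1 = true ∧ y.2.1 = x.2.1 ∧ x.2.2 = y.2.2 + 2) ∨
            (y.1 = false ∧ x.1 = true ∧ x.2.2 = y.2.2 + y.2.1 * x.2.1))))).card = 7 := by
  decide +kernel

theorem big_prime_HSdeg' (x : Bool × ZMod 5 × ZMod 5) :
    (Finset.univ.filter (fun y => HS.Adj x y)).card = 7 := by
  rw [← big_prime_HSdeg x]
  congr 1
  ext y
  simp only [Finset.mem_filter, Finset.mem_univ, true_and]
  exact Iff.rfl

theorem big_prime_deg (H : SimpleGraph (Fin 50)) (e : HS ≃g H) (v : Fin 50) :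
    (Finset.univ.filter (fun y => H.Adj v y)).card = 7 := by
  rw [← big_prime_HSdeg' (e.symm v)]
  apply Finset.card_bij (fun y _ => e.symm y)
  · intro y hy
    simp only [Finset.mem_filter, Finset.mem_univ, true_and] at hy ⊢
    exact (e.symm.map_adj_iff).2 hy
  · intro a _ b _ hab
    exact e.symm.injective hab
  · intro b hb
    simp only [Finset.mem_filter, Finset.mem_univ, true_and] at hb
    refine ⟨e b, ?_, by simp⟩
    simp only [Finset.mem_filter, Finset.mem_univ, true_and]
    have := (e.map_adj_iff (v := e.symm v) (w := b)).2 hb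
    simpa using this

theorem big_prime (G : Fin 7 → SimpleGraph (Fin 50)) (hG : Dec G) (σ : Equiv.Perm (Fin 50))
    (hA : Aut G σ) (p : ℕ) (hp : p.Prime) (hσ : σ ^ p = 1) (hne : σ ≠ 1) (hp7 : 7 < p) : False := by
  have hdeg : ∀ i v, (Finset.univ.filter (fun y => (G i).Adj v y)).card = 7 := by
    intro i v
    obtain ⟨e⟩ := hG.iso i
    exact big_prime_deg (G i) e v
  have hedge : ∀ i, ∃ x y, (G i).Adj x y := by
    intro i
    have h1 := hdeg i 0
    have h2 : (Finset.univ.filter (fun y => (G i).Adj 0 y)).Nonempty := by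
      rw [← Finset.card_pos, h1]
      norm_num
    obtain ⟨y, hy⟩ := h2
    exact ⟨0, y, (Finset.mem_filter.1 hy).2⟩
  choose τ hτ using hA
  have hinj : Function.Injective τ := by
    intro i i' hii
    by_contra hne'
    obtain ⟨x, y, hxy⟩ := hedge i
    have h1 := (hτ i x y).1 hxy
    rw [hii] at h1
    exact hG.disj i i' hne' x y hxy ((hτ i' x y).2 h1)
  have hbij : Function.Bijective τ := Finite.injective_iff_bijective.1 hinj
  let T : Equiv.Perm (Fin 7) := Equiv.ofBijective τ hbij
  have hTpow : ∀ n : ℕ, ∀ i x y, (G i).Adj x y ↔ (G ((T ^ n) i)).Adj ((σ ^ n) x) ((σ ^ n) y) := by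
    intro n
    induction n with
    | zero => intro i x y; simp
    | succ n ih =>
      intro i x y
      rw [ih i x y, hτ ((T ^ n) i), pow_succ', pow_succ']
      rfl
  have hTp : T ^ p = 1 := by
    ext1 i
    show (T ^ p) i = i
    by_contra hcon
    obtain ⟨x, y, hxy⟩ := hedge i
    have h1 := (hTpow p i x y).1 hxy
    rw [hσ] at h1
    exact hG.disj i _ (Ne.symm hcon) x y hxy h1
  have hT1 : T = 1 := by
    have h1 : orderOf T ∣ p := orderOf_dvd_of_pow_eq_one hTp
    have h2 : orderOf T ∣ Nat.factorial 7 := by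
      have := orderOf_dvd_card (x := T)
      rwa [Fintype.card_perm, Fintype.card_fin] at this
    have h3 : Nat.Coprime p (Nat.factorial 7) := by
      rw [Nat.Prime.coprime_iff_not_dvd hp, Nat.Prime.dvd_factorial hp]
      omega
    have h4 : orderOf T ∣ 1 := by
      have := Nat.dvd_gcd h1 h2
      rwa [h3] at this
    exact orderOf_eq_one_iff.1 (Nat.dvd_one.1 h4)
  have hinv : ∀ i, Inv (G i) σ := by
    intro i x y
    have h1 := hTpow 1 i x y
    rw [hT1] at h1
    simpa using h1
  haveI : Fact p.Prime := ⟨hp⟩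
  have hnd : ¬ p ∣ Fintype.card (Fin 50) := by
    rw [Fintype.card_fin]
    intro h
    have h50 : (50 : ℕ) = 2 * (5 * 5) := by norm_num
    rw [h50, Nat.Prime.dvd_mul hp, Nat.Prime.dvd_mul hp] at h
    rcases h with h | h | h
    · have := Nat.le_of_dvd (by norm_num) h
      omega
    · have := Nat.le_of_dvd (by norm_num) h
      omega
    · have := Nat.le_of_dvd (by norm_num) h
      omega
  obtain ⟨x, hx⟩ := Equiv.Perm.exists_fixed_point_of_prime (n := 1) hnd (by rw [pow_one]; exact hσ)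
  have hxn : ∀ n : ℕ, (σ ^ n) x = x := by
    intro n
    induction n with
    | zero => simp
    | succ n ih =>
      rw [pow_succ, Equiv.Perm.mul_apply, hx, ih]
  have hinvn : ∀ i (n : ℕ) (a b : Fin 50), (G i).Adj a b → (G i).Adj ((σ ^ n) a) ((σ ^ n) b) := by
    intro i n a b hab
    have h1 := (hTpow n i a b).1 hab
    rw [hT1] at h1
    simpa using h1
  apply hne
  ext1 y
  show σ y = y
  by_cases hxy : x = y
  · rw [← hxy]
    exact hx
  · obtain ⟨i, hi⟩ := hG.cov x y hxy
    have hper : Function.IsPeriodicPt σ p y := by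
      show (σ : Fin 50 → Fin 50)^[p] y = y
      rw [Equiv.Perm.iterate_eq_pow, hσ]
      rfl
    have hdvd := hper.minimalPeriod_dvd
    rcases (Nat.dvd_prime hp).1 hdvd with h | h
    · exact Function.minimalPeriod_eq_one_iff_isFixedPt.1 h
    · exfalso
      have hcard : (Finset.range p).card ≤ (Finset.univ.filter (fun y => (G i).Adj x y)).card := by
        apply Finset.card_le_card_of_injOn (fun n => (σ : Fin 50 → Fin 50)^[n] y)
        · intro n _
          simp only [Finset.coe_filter, Finset.mem_univ, true_and, Set.mem_setOf_eq]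
          rw [Equiv.Perm.iterate_eq_pow]
          have := hinvn i n x y hi
          rwa [hxn n] at this
        · intro a ha b hb hab
          have := Function.iterate_injOn_Iio_minimalPeriod (f := (σ : Fin 50 → Fin 50)) (x := y)
          rw [h] at this
          apply this _ _ hab
          · simpa using ha
          · simpa using hb
      rw [hdeg i x, Finset.card_range] at hcard
      omega

end L_big_prime


namespace L_pos_deg


theorem pos_deg (H : SimpleGraph (Fin 50)) (hM : Moore H) (σ : Equiv.Perm (Fin 50)) (hI : Inv H σ)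
    (hf : 2 ≤ (F σ).card) (w : Fin 50) (hw : w ∈ F σ) : 1 ≤ d H σ w := by
  obtain ⟨y, hy, hyw⟩ := Finset.exists_mem_ne (show 1 < (F σ).card by omega) w
  have hw' : σ w = w := (Finset.mem_filter.1 hw).2
  have hy' : σ y = y := (Finset.mem_filter.1 hy).2
  have key : ∃ z, σ z = z ∧ H.Adj w z := by
    by_cases h : H.Adj w y
    · exact ⟨y, hy', h⟩
    · obtain ⟨z, ⟨h1, h2⟩, huniq⟩ := hM.com w y (Ne.symm hyw) h
      have h3 : H.Adj w (σ z) := by
        have := (hI w z).1 h1
        rwa [hw'] at this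
      have h4 : H.Adj y (σ z) := by
        have := (hI y z).1 h2
        rwa [hy'] at this
      exact ⟨z, huniq _ ⟨h3, h4⟩, h1⟩
  obtain ⟨z, hz, hwz⟩ := key
  exact Finset.card_pos.2 ⟨z, Finset.mem_filter.2 ⟨Finset.mem_univ _, hz, hwz⟩⟩

end L_pos_deg


namespace L_pgroup7


theorem pgroup7 (Γ : Subgroup (Equiv.Perm (Fin 50)))
    (h : ∀ g ∈ Γ, g ^ 7 = 1 → g ≠ 1 → (F g).card = 1) : ¬ 7 ^ 3 ∣ Nat.card Γ := by
  intro hdvd
  haveI : Fact (Nat.Prime 7) := ⟨by norm_num⟩
  obtain ⟨P, hP⟩ := Sylow.exists_subgroup_card_pow_prime (G := Γ) 7 hdvd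
  have hpg : IsPGroup 7 P := IsPGroup.of_card hP
  have hmod := hpg.card_modEq_card_fixedPoints (Fin 50)
  have hne : Nat.card (MulAction.fixedPoints P (Fin 50)) ≠ 0 := by
    intro h0
    rw [h0, Nat.card_eq_fintype_card, Fintype.card_fin] at hmod
    exact absurd hmod (by decide)
  have hne' : Nonempty (MulAction.fixedPoints P (Fin 50)) := by
    by_contra hc
    rw [not_nonempty_iff] at hc
    exact hne (Nat.card_of_isEmpty)
  obtain ⟨⟨v, hv⟩⟩ := hne'
  obtain ⟨x, hx⟩ : ∃ x : Fin 50, x ≠ v := exists_ne v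
  have hst : Nat.card (MulAction.stabilizer P x) = 1 := by
    by_contra hne1
    have hd : Nat.card (MulAction.stabilizer P x) ∣ 7 ^ 3 := by
      rw [← hP]; exact Subgroup.card_subgroup_dvd_card _
    obtain ⟨j, hj, hj2⟩ := (Nat.dvd_prime_pow (by norm_num)).1 hd
    have hj0 : j ≠ 0 := by
      rintro rfl; exact hne1 (by simpa using hj2)
    have h7 : 7 ∣ Nat.card (MulAction.stabilizer P x) := by
      rw [hj2]; exact dvd_pow_self 7 hj0
    obtain ⟨g, hg⟩ := exists_prime_orderOf_dvd_card' 7 h7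
    have hg7 : g ^ 7 = 1 := by rw [← hg]; exact pow_orderOf_eq_one g
    have hg1 : g ≠ 1 := by
      intro h1; rw [h1, orderOf_one] at hg; exact absurd hg (by norm_num)
    set σ : Equiv.Perm (Fin 50) := (((g : P) : Γ) : Equiv.Perm (Fin 50)) with hσ
    have hσ7 : σ ^ 7 = 1 := by
      have := congrArg (fun t : MulAction.stabilizer P x => (((t : P) : Γ) : Equiv.Perm (Fin 50))) hg7
      simpa using this
    have hσ1 : σ ≠ 1 := by
      intro h1
      apply hg1
      apply Subtype.ext
      apply Subtype.ext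
      apply Subtype.ext
      exact h1
    have hF := h σ ((g : P) : Γ).2 hσ7 hσ1
    have hvσ : σ v = v := hv (g : P)
    have hxσ : σ x = x := g.2
    have h2 : ({v, x} : Finset (Fin 50)) ⊆ F σ := by
      intro y hy
      rw [Finset.mem_insert, Finset.mem_singleton] at hy
      unfold F
      rw [Finset.mem_filter]
      rcases hy with rfl | rfl
      · exact ⟨Finset.mem_univ _, hvσ⟩
      · exact ⟨Finset.mem_univ _, hxσ⟩
    have h3 := Finset.card_le_card h2
    rw [hF, Finset.card_pair hx.symm] at h3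
    omega
  have h4 := Nat.card_congr (MulAction.orbitProdStabilizerEquivGroup P x)
  rw [Nat.card_prod, hst, hP, mul_one] at h4
  have h5 : Nat.card (MulAction.orbit P x) ≤ Nat.card (Fin 50) :=
    Nat.card_le_card_of_injective (Subtype.val) Subtype.val_injective
  rw [h4, Nat.card_eq_fintype_card, Fintype.card_fin] at h5
  norm_num at h5

end L_pgroup7


namespace L_pgroup5


theorem pgroup5 (Γ : Subgroup (Equiv.Perm (Fin 50)))
    (h : ∀ g ∈ Γ, g ^ 5 = 1 → g ≠ 1 → (F g).card = 0 ∨ (F g).card = 5) : ¬ 5 ^ 4 ∣ Nat.card Γ := by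
  intro h4
  have : Fact (Nat.Prime 5) := ⟨by norm_num⟩
  -- a subgroup of order 25 fixing the point 0
  obtain ⟨S, hScard, hSΓ, hS0⟩ : ∃ S : Subgroup (Equiv.Perm (Fin 50)), Nat.card S = 25 ∧
      (∀ g ∈ S, g ∈ Γ) ∧ ∀ g ∈ S, g 0 = 0 := by
    obtain ⟨K, hK⟩ := Sylow.exists_subgroup_card_pow_prime 5 h4
    have hidx : (MulAction.stabilizer K (0 : Fin 50)).index =
        (MulAction.orbit K (0 : Fin 50)).ncard := MulAction.index_stabilizer K (0 : Fin 50)
    have hle : (MulAction.orbit K (0 : Fin 50)).ncard ≤ 50 := by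
      have h1 := Set.ncard_le_card (MulAction.orbit K (0 : Fin 50))
      simpa using h1
    have hmul := (MulAction.stabilizer K (0 : Fin 50)).card_mul_index
    rw [hK] at hmul
    have hdvd : (MulAction.stabilizer K (0 : Fin 50)).index ∣ 5 ^ 4 := ⟨_, by rw [← hmul]; ring⟩
    obtain ⟨j, hj, hj2⟩ := (Nat.dvd_prime_pow (by norm_num)).1 hdvd
    have h25 : 5 ^ 2 ∣ Nat.card (MulAction.stabilizer K (0 : Fin 50)) := by
      rw [hj2] at hidx hmul
      interval_cases j
      · exact ⟨25, by norm_num at hmul ⊢; omega⟩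
      · exact ⟨5, by norm_num at hmul ⊢; omega⟩
      · exact ⟨1, by norm_num at hmul ⊢; omega⟩
      · norm_num at hidx; omega
      · norm_num at hidx; omega
    obtain ⟨S0, hS0⟩ := Sylow.exists_subgroup_card_pow_prime 5 h25
    let f : S0 →* Equiv.Perm (Fin 50) := Γ.subtype.comp (K.subtype.comp
      ((MulAction.stabilizer K (0 : Fin 50)).subtype.comp S0.subtype))
    have hf : Function.Injective f := by
      intro a b hab
      exact Subtype.ext (Subtype.ext (Subtype.ext (Subtype.ext hab)))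
    refine ⟨f.range, ?_, ?_, ?_⟩
    · rw [← Nat.card_congr (MonoidHom.ofInjective hf).toEquiv, hS0]
      norm_num
    · rintro _ ⟨a, rfl⟩
      exact (a.1.1.1).2
    · rintro _ ⟨a, rfl⟩
      exact a.1.2
  have hcardS : Nat.card S = 5 ^ 2 := by rw [hScard]; norm_num
  have hpS : IsPGroup 5 S := IsPGroup.of_card hcardS
  have hmod := hpS.card_modEq_card_fixedPoints (Fin 50)
  rw [Nat.card_eq_fintype_card, Fintype.card_fin] at hmod
  have h0mem : (0 : Fin 50) ∈ MulAction.fixedPoints S (Fin 50) := by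
    intro g
    exact hS0 g.1 g.2
  have hpos : 0 < Nat.card (MulAction.fixedPoints S (Fin 50)) := by
    have : Nonempty (MulAction.fixedPoints S (Fin 50)) := ⟨⟨0, h0mem⟩⟩
    exact Nat.card_pos
  have h5 : 5 ≤ Nat.card (MulAction.fixedPoints S (Fin 50)) := by
    unfold Nat.ModEq at hmod
    omega
  have hFle : ∀ g ∈ S, 5 ≤ (F g).card := by
    intro g hg
    refine h5.trans ?_
    have h1 : MulAction.fixedPoints S (Fin 50) ⊆ (F g : Set (Fin 50)) := by
      intro y hy
      have h2 : g y = y := hy ⟨g, hg⟩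
      simpa [F] using h2
    have h3 := Set.ncard_le_ncard h1 (Finset.finite_toSet _)
    rw [Set.ncard_coe_finset] at h3
    exact h3
  have hF5 : ∀ g ∈ S, g ^ 5 = 1 → g ≠ 1 → (F g).card = 5 := by
    intro g hg h1 h2
    rcases h g (hSΓ g hg) h1 h2 with h3 | h3
    · have := hFle g hg
      omega
    · exact h3
  have hFne : ∀ g ∈ S, g ≠ 1 → (F g).card = 5 := by
    intro g hg hg1
    by_cases h1 : g ^ 5 = 1
    · exact hF5 g hg h1 hg1
    · have h25 : (g ^ 5) ^ 5 = 1 := by
        rw [← pow_mul]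
        have h2 : (⟨g, hg⟩ : S) ^ Nat.card S = 1 := pow_card_eq_one'
        rw [hScard] at h2
        have h3 := congrArg Subtype.val h2
        simpa using h3
      have h4 := hF5 (g ^ 5) (pow_mem hg 5) h25 h1
      have h5' := hFle g hg
      have h6 : F g ⊆ F (g ^ 5) := by
        intro y hy
        simp only [F, Finset.mem_filter, Finset.mem_univ, true_and] at hy ⊢
        exact Equiv.Perm.pow_apply_eq_self_of_apply_eq_self hy 5
      have h7 := Finset.card_le_card h6
      omega
  have hfix : ∀ g : S, Nat.card (MulAction.fixedBy (Fin 50) g) = (F g.1).card := by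
    intro g
    refine Nat.subtype_card (F g.1) ?_
    intro x
    simp only [F, Finset.mem_filter, Finset.mem_univ, true_and]
    rfl
  have hF1 : (F 1).card = 50 := by
    have : F 1 = Finset.univ := by
      ext x
      simp [F]
    rw [this]
    simp
  have hb := MulAction.sum_card_fixedBy_eq_card_orbits_mul_card_group S (Fin 50)
  simp only [← Nat.card_eq_fintype_card] at hb
  rw [hScard] at hb
  have hsum : ∑ g : S, Nat.card (MulAction.fixedBy (Fin 50) g) = 170 := by
    simp only [hfix]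
    rw [← Finset.add_sum_erase Finset.univ _ (Finset.mem_univ (1 : S))]
    have h1 : ∑ g ∈ Finset.univ.erase (1 : S), (F g.1).card =
        ∑ g ∈ Finset.univ.erase (1 : S), 5 := by
      refine Finset.sum_congr rfl fun g hg => ?_
      refine hFne g.1 g.2 ?_
      intro h2
      exact Finset.ne_of_mem_erase hg (Subtype.ext h2)
    rw [h1, Finset.sum_const, Finset.card_erase_of_mem (Finset.mem_univ _), Finset.card_univ,
      ← Nat.card_eq_fintype_card, hScard]
    have h2 : (F ((1 : S) : Equiv.Perm (Fin 50))).card = 50 := hF1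
    rw [h2]
    norm_num
  rw [hsum] at hb
  omega

end L_pgroup5


namespace L_final_div


theorem final_div (n : ℕ) (hn : n ≠ 0) (h : ∀ p : ℕ, p.Prime → p ∣ n → p = 5 ∨ p = 7)
    (h7 : ¬ 7 ^ 3 ∣ n) (h5 : ¬ 5 ^ 4 ∣ n) : n ∣ 5 ^ 3 * 7 ^ 2 := by
  rw [Nat.dvd_iff_prime_pow_dvd_dvd]
  intro p k hp hk
  rcases Nat.eq_zero_or_pos k with rfl | hk0
  · simp
  have hpn : p ∣ n := (dvd_pow_self p hk0.ne').trans hk
  rcases h p hp hpn with rfl | rfl
  · have hk3 : k ≤ 3 := by
      by_contra hc
      exact h5 ((pow_dvd_pow 5 (by omega)).trans hk)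
    exact (pow_dvd_pow 5 hk3).trans (Dvd.intro _ rfl)
  · have hk2 : k ≤ 2 := by
      by_contra hc
      exact h7 ((pow_dvd_pow 7 (by omega)).trans hk)
    exact (pow_dvd_pow 7 hk2).trans (Dvd.intro_left _ rfl)

end L_final_div


end Pool.Agent.Helper999.HSD
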