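import Pool.Agent.Helper999.HSD.Lemmas
set_option autoImplicit false
open scoped Classical
namespace Pool.Agent.Helper999.HSD

theorem d_le (H : SimpleGraph (Fin 50)) (hM : Moore H) (σ : Equiv.Perm (Fin 50)) (w : Fin 50) :
    d H σ w ≤ 7 := by
  rw [← hM.reg w]
  unfold d
  apply Finset.card_le_card
  intro y hy
  simp only [Finset.mem_filter, Finset.mem_univ, true_and] at hy ⊢
  exact hy.2

theorem F_le (σ : Equiv.Perm (Fin 50)) : (F σ).card ≤ 50 := by
  have := Finset.card_le_univ (F σ)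
  simpa using this

theorem F_ne (σ : Equiv.Perm (Fin 50)) (hne : σ ≠ 1) : (F σ).card ≠ 50 := by
  intro h
  apply hne
  have h2 : F σ = Finset.univ := by
    apply Finset.eq_univ_of_card
    simpa using h
  ext x
  have : x ∈ F σ := by rw [h2]; exact Finset.mem_univ x
  have h3 : σ x = x := by simpa [F] using this
  rw [h3]; rfl

theorem C_le (G : Fin 7 → SimpleGraph (Fin 50)) (σ : Equiv.Perm (Fin 50)) : (C G σ).card ≤ 7 := by
  have := Finset.card_le_univ (C G σ)
  simpa using this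

theorem memC (G : Fin 7 → SimpleGraph (Fin 50)) (σ : Equiv.Perm (Fin 50)) (i : Fin 7)
    (hi : i ∈ C G σ) : Inv (G i) σ := by
  simpa [C] using hi

section
variable {G : Fin 7 → SimpleGraph (Fin 50)} (hG : Dec G) {σ : Equiv.Perm (Fin 50)} (hA : Aut G σ)
include hG

theorem moore (i : Fin 7) : Moore (G i) := L_hs_moore.hs_moore (G i) (hG.iso i)

include hA in
theorem h1 : ∀ w ∈ F σ, ∑ i ∈ C G σ, (d (G i) σ w : ℤ) = ((F σ).card : ℤ) - 1 := by
  intro w hw
  have := L_sum_deg.sum_deg G hG σ hA w hw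
  have h2 : (∑ i ∈ C G σ, (d (G i) σ w : ℤ)) + 1 = ((F σ).card : ℤ) := by exact_mod_cast this
  linarith

theorem h2 : ∀ i ∈ C G σ, ∑ w ∈ F σ, (d (G i) σ w : ℤ) ^ 2 = ((F σ).card : ℤ) ^ 2 - (F σ).card := by
  intro i hi
  have := L_sum_sq.sum_sq (G i) (moore hG i) σ (memC G σ i hi)
  have h3 : (∑ w ∈ F σ, (d (G i) σ w : ℤ) ^ 2) + ((F σ).card : ℤ) = ((F σ).card : ℤ) ^ 2 := by
    exact_mod_cast this
  linarith

include hA in
theorem b2 (hF : 2 ≤ (F σ).card) : ((F σ).card : ℤ) - 1 ≤ ((C G σ).card : ℤ) ^ 2 :=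
  L_bound2.bound2 (C G σ) (F σ) (fun i w => (d (G i) σ w : ℤ)) (h1 hG hA) (h2 hG) hF

include hA in
theorem b1 (h3 : ∀ i ∈ C G σ, ∀ w ∈ F σ, 1 ≤ d (G i) σ w) (hF : 0 < (F σ).card) :
    ((C G σ).card : ℤ) * (((F σ).card : ℤ) - 1) ≤ 8 * (((F σ).card : ℤ) - 1) - 7 * (C G σ).card :=
  L_bound1.bound1 (C G σ) (F σ) (fun i w => (d (G i) σ w : ℤ)) (h1 hG hA) (h2 hG)
    (fun i hi w hw => ⟨by exact_mod_cast h3 i hi w hw, by exact_mod_cast d_le (G i) (moore hG i) σ w⟩) hF

include hA in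
theorem no2 (hσ : σ ^ 2 = 1) (hne : σ ≠ 1) : False := by
  have hcm := L_c_mod.c_mod G hG σ hA 2 Nat.prime_two hσ
  have hfm := L_f_mod.f_mod σ 2 Nat.prime_two hσ
  have hcl := C_le G σ
  have hfl := F_le σ
  have hfn := F_ne σ hne
  have hsum := L_invol_sum.invol_sum G hG σ hA hσ
  -- counts
  have hcount : ∀ i ∈ C G σ, ((Finset.univ.filter (fun x => (G i).Adj x (σ x))).card : ℤ) =
      50 - 8 * (F σ).card + ∑ w ∈ F σ, (d (G i) σ w : ℤ) := by
    intro i hi
    have := L_invol_count.invol_count (G i) (moore hG i) σ (memC G σ i hi) hσ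
    have h3 : ((Finset.univ.filter (fun x => (G i).Adj x (σ x))).card : ℤ) + 8 * ((F σ).card : ℤ) =
      50 + ∑ w ∈ F σ, (d (G i) σ w : ℤ) := by exact_mod_cast this
    linarith
  have hE : 50 - ((F σ).card : ℤ) = ((C G σ).card : ℤ) * (50 - 8 * (F σ).card)
      + (F σ).card * (((F σ).card : ℤ) - 1) := by
    have h4 : (∑ i ∈ C G σ, ((Finset.univ.filter (fun x => (G i).Adj x (σ x))).card : ℤ))
        + ((F σ).card : ℤ) = 50 := by exact_mod_cast hsum
    rw [Finset.sum_congr rfl hcount, Finset.sum_add_distrib, Finset.sum_const, Finset.sum_comm,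
      Finset.sum_congr rfl (h1 hG hA), Finset.sum_const] at h4
    simp only [nsmul_eq_mul] at h4
    linarith
  rcases Nat.eq_zero_or_pos (F σ).card with h0 | hpos
  · -- no fixed points
    rw [h0] at hE
    have hc1 : ((C G σ).card : ℤ) = 1 := by push_cast at hE; linarith
    have hc1' : (C G σ).card = 1 := by exact_mod_cast hc1
    obtain ⟨i, hi⟩ : (C G σ).Nonempty := Finset.card_pos.1 (by omega)
    have h5 := hcount i hi
    have hF0 : F σ = ∅ := Finset.card_eq_zero.1 h0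
    rw [hF0] at h5
    simp only [Finset.card_empty, Finset.sum_empty] at h5
    have h6 : (Finset.univ.filter (fun x => (G i).Adj x (σ x))) = Finset.univ := by
      apply Finset.eq_univ_of_card
      have : (Finset.univ.filter (fun x => (G i).Adj x (σ x))).card = 50 := by
        have h7 : ((Finset.univ.filter (fun x => (G i).Adj x (σ x))).card : ℤ) = 50 := by
          rw [h5]; norm_num
        exact_mod_cast h7
      simpa using this
    refine L_no_match.no_match (G i) (moore hG i) σ (memC G σ i hi) hσ (fun x => ?_)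
    have : x ∈ (Finset.univ.filter (fun x => (G i).Adj x (σ x))) := by
      rw [h6]; exact Finset.mem_univ x
    simpa using this
  · have hd : ∀ i ∈ C G σ, ∀ w ∈ F σ, 1 ≤ d (G i) σ w := by
      intro i hi w hw
      have := L_deg_mod.deg_mod (G i) (moore hG i) σ (memC G σ i hi) 2 Nat.prime_two hσ w hw
      unfold Nat.ModEq at this
      omega
    have hb1 := b1 hG hA hd hpos
    unfold Nat.ModEq at hcm hfm
    have hf2 : 2 ≤ (F σ).card := by omega
    have hb2 := b2 hG hA hf2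
    refine L_arith2.arith2 ((C G σ).card : ℤ) ((F σ).card : ℤ) (by positivity) (by exact_mod_cast hcl)
      (by omega) (by exact_mod_cast hpos) (by exact_mod_cast hfl) (by omega) hE hb1 hb2
      (by exact_mod_cast hfn)

include hA in
theorem no3 (hσ : σ ^ 3 = 1) (hne : σ ≠ 1) : False := by
  have hcm := L_c_mod.c_mod G hG σ hA 3 Nat.prime_three hσ
  have hfm := L_f_mod.f_mod σ 3 Nat.prime_three hσ
  have hcl := C_le G σ
  have hfl := F_le σ
  have hfn := F_ne σ hne
  have hd : ∀ i ∈ C G σ, ∀ w ∈ F σ, 1 ≤ d (G i) σ w := by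
    intro i hi w hw
    have := L_deg_mod.deg_mod (G i) (moore hG i) σ (memC G σ i hi) 3 Nat.prime_three hσ w hw
    unfold Nat.ModEq at this
    omega
  unfold Nat.ModEq at hcm hfm
  have hf2 : 2 ≤ (F σ).card := by omega
  have hb1 := b1 hG hA hd (by omega)
  have hb2 := b2 hG hA hf2
  obtain ⟨i, hi⟩ : (C G σ).Nonempty := Finset.card_pos.1 (by omega)
  have htr := L_trace_mod.trace_mod (G i) (moore hG i) σ (memC G σ i hi)
  have h0 : (Finset.univ.filter (fun x => (G i).Adj x (σ x))).card = 0 := by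
    rw [Finset.card_eq_zero, Finset.filter_eq_empty_iff]
    intro x _
    exact L_order3_no.order3_no (G i) (moore hG i) σ (memC G σ i hi) hσ x
  rw [h0] at htr
  have h5 : (F σ).card % 5 = 0 := by
    have h6 : ((2 * (F σ).card : ℕ) : ZMod 5) = 0 := by
      push_cast at htr ⊢
      exact htr.symm
    rw [ZMod.natCast_eq_zero_iff] at h6
    omega
  exact L_arith3.arith3 ((C G σ).card : ℤ) ((F σ).card : ℤ) (by positivity) (by exact_mod_cast hcl)
      (by omega) (by positivity) (by exact_mod_cast hfl) (by omega) (by omega) hb1 hb2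
      (by exact_mod_cast hfn)

include hA in
theorem fix7 (hσ : σ ^ 7 = 1) (hne : σ ≠ 1) : (F σ).card = 1 := by
  have hp : Nat.Prime 7 := by norm_num
  have hcm := L_c_mod.c_mod G hG σ hA 7 hp hσ
  have hfm := L_f_mod.f_mod σ 7 hp hσ
  have hcl := C_le G σ
  have hfl := F_le σ
  have hfn := F_ne σ hne
  unfold Nat.ModEq at hcm hfm
  by_contra hne1
  have hf2 : 2 ≤ (F σ).card := by omega
  have hb2 := b2 hG hA hf2
  have hc7 : (C G σ).card = 7 := by
    rcases (show (C G σ).card = 0 ∨ (C G σ).card = 7 by omega) with h | h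
    · rw [h] at hb2
      exfalso
      push_cast at hb2
      omega
    · exact h
  obtain ⟨w, hw⟩ : (F σ).Nonempty := Finset.card_pos.1 (by omega)
  have hd : ∀ i ∈ C G σ, d (G i) σ w = 7 := by
    intro i hi
    have h3 := L_pos_deg.pos_deg (G i) (moore hG i) σ (memC G σ i hi) hf2 w hw
    have h4 := d_le (G i) (moore hG i) σ w
    have h5 := L_deg_mod.deg_mod (G i) (moore hG i) σ (memC G σ i hi) 7 hp hσ w hw
    unfold Nat.ModEq at h5
    omega
  have h6 := L_sum_deg.sum_deg G hG σ hA w hw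
  rw [Finset.sum_congr rfl hd, Finset.sum_const, hc7] at h6
  simp at h6
  omega

include hA in
theorem fix5 (hσ : σ ^ 5 = 1) (hne : σ ≠ 1) : (F σ).card = 0 ∨ (F σ).card = 5 := by
  have hp : Nat.Prime 5 := by norm_num
  have hcm := L_c_mod.c_mod G hG σ hA 5 hp hσ
  have hfm := L_f_mod.f_mod σ 5 hp hσ
  have hcl := C_le G σ
  have hfl := F_le σ
  have hfn := F_ne σ hne
  unfold Nat.ModEq at hcm hfm
  by_contra hcon
  push Not at hcon
  have hf10 : 10 ≤ (F σ).card := by omega
  have hb2 := b2 hG hA (by omega)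
  have hc7 : (C G σ).card = 7 := by
    rcases (show (C G σ).card = 2 ∨ (C G σ).card = 7 by omega) with h | h
    · rw [h] at hb2
      exfalso
      push_cast at hb2
      omega
    · exact h
  have hd : ∀ i ∈ C G σ, ∀ w ∈ F σ, (d (G i) σ w : ℤ) ^ 2 = 9 * (d (G i) σ w : ℤ) - 14 := by
    intro i hi w hw
    have h4 := d_le (G i) (moore hG i) σ w
    have h5 := L_deg_mod.deg_mod (G i) (moore hG i) σ (memC G σ i hi) 5 hp hσ w hw
    unfold Nat.ModEq at h5
    rcases (show d (G i) σ w = 2 ∨ d (G i) σ w = 7 by omega) with h | h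
    · rw [h]; norm_num
    · rw [h]; norm_num
  have hA1 : ∑ i ∈ C G σ, ∑ w ∈ F σ, (d (G i) σ w : ℤ) ^ 2 =
      7 * (((F σ).card : ℤ) ^ 2 - (F σ).card) := by
    rw [Finset.sum_congr rfl (h2 hG), Finset.sum_const, hc7]
    simp
  have hA2 : ∑ i ∈ C G σ, ∑ w ∈ F σ, (d (G i) σ w : ℤ) ^ 2 =
      9 * ((F σ).card * (((F σ).card : ℤ) - 1)) - 14 * 7 * (F σ).card := by
    have h7 : ∑ i ∈ C G σ, ∑ w ∈ F σ, (d (G i) σ w : ℤ) ^ 2 =
        ∑ i ∈ C G σ, ∑ w ∈ F σ, (9 * (d (G i) σ w : ℤ) - 14) :=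
      Finset.sum_congr rfl (fun i hi => Finset.sum_congr rfl (fun w hw => hd i hi w hw))
    rw [h7, Finset.sum_comm]
    have h8 : ∀ w ∈ F σ, ∑ i ∈ C G σ, (9 * (d (G i) σ w : ℤ) - 14) =
        9 * (((F σ).card : ℤ) - 1) - 14 * 7 := by
      intro w hw
      rw [Finset.sum_sub_distrib, ← Finset.mul_sum, h1 hG hA w hw, Finset.sum_const, hc7]
      simp
    rw [Finset.sum_congr rfl h8, Finset.sum_const]
    simp only [nsmul_eq_mul]
    ring
  rw [hA1] at hA2
  have hf0 : (0:ℤ) < ((F σ).card : ℤ) := by exact_mod_cast (by omega : 0 < (F σ).card)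
  have h9 : ((F σ).card : ℤ) * (((F σ).card : ℤ) - 50) = 0 := by nlinarith
  rcases mul_eq_zero.1 h9 with h | h
  · omega
  · apply hfn
    have : ((F σ).card : ℤ) = 50 := by linarith
    exact_mod_cast this

end

theorem primes (G : Fin 7 → SimpleGraph (Fin 50)) (hG : Dec G) (σ : Equiv.Perm (Fin 50))
    (hA : Aut G σ) (p : ℕ) (hp : p.Prime) (hσ : σ ^ p = 1) (hne : σ ≠ 1) : p = 5 ∨ p = 7 := by
  by_contra hcon
  push Not at hcon
  rcases lt_or_ge 7 p with h | h
  · exact L_big_prime.big_prime G hG σ hA p hp hσ hne h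
  · have : p = 2 ∨ p = 3 := by
      have h2 := hp.two_le
      interval_cases p <;> first | omega | (exfalso; revert hp; norm_num)
    rcases this with rfl | rfl
    · exact no2 hG hA hσ hne
    · exact no3 hG hA hσ hne

theorem group_order (G : Fin 7 → SimpleGraph (Fin 50)) (hG : Dec G)
    (Γ : Subgroup (Equiv.Perm (Fin 50))) (hΓ : ∀ g ∈ Γ, Aut G g) :
    Nat.card Γ ∣ 5 ^ 3 * 7 ^ 2 := by
  apply L_final_div.final_div
  · exact Nat.card_pos.ne'
  · intro p hp hdvd
    have : Fact p.Prime := ⟨hp⟩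
    obtain ⟨g, hg⟩ := exists_prime_orderOf_dvd_card' p hdvd
    have hg1 : (g : Equiv.Perm (Fin 50)) ^ p = 1 := by
      have := pow_orderOf_eq_one g
      rw [hg] at this
      exact_mod_cast congrArg Subtype.val this
    have hg2 : (g : Equiv.Perm (Fin 50)) ≠ 1 := by
      intro h
      have h3 : g = 1 := Subtype.ext h
      rw [h3, orderOf_one] at hg
      exact hp.one_lt.ne hg
    exact primes G hG g.1 (hΓ g.1 g.2) p hp hg1 hg2
  · exact L_pgroup7.pgroup7 Γ (fun g hg h7 hne => fix7 hG (hΓ g hg) h7 hne)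
  · exact L_pgroup5.pgroup5 Γ (fun g hg h5 hne => fix5 hG (hΓ g hg) h5 hne)

end Pool.Agent.Helper999.HSD
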